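import Pool.Agent.L7h38.UC.Stm

set_option autoImplicit false

/-! Project UC, part DIS: Lipschitz functions. -/

namespace Pool.Agent.L7h42.UC

open Finset
open Pool.Agent.L7h38.UC

/-- the change of a count when one value is changed -/
theorem count_update {d n : ℕ} (f : Fin n → Fin d) (p : Fin n) (b j : Fin d) :
    ((#{y | Function.update f p b y = j} : ℕ) : ℤ) =
      (#{y | f y = j} : ℕ) - (if f p = j then 1 else 0) + (if b = j then 1 else 0) := by
  have h1 : ∀ g : Fin n → Fin d, ((#{y | g y = j} : ℕ) : ℤ) = ∑ y, if g y = j then (1 : ℤ) else 0 := by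
    intro g
    rw [Finset.card_filter]
    push_cast
    rfl
  rw [h1, h1]
  have h2 : ∑ y, (if Function.update f p b y = j then (1 : ℤ) else 0) -
      ∑ y, (if f y = j then (1 : ℤ) else 0) =
      (if b = j then 1 else 0) - (if f p = j then 1 else 0) := by
    rw [← Finset.sum_sub_distrib, Finset.sum_eq_single p]
    · simp
    · intro y _ hy
      rw [Function.update_of_ne hy]
      ring
    · intro h
      exact absurd (Finset.mem_univ p) h
  linarith

theorem shift_bal {d n : ℕ} {c c'' : Cf d n} {a b i i' : Fin d} (hc : Bal c)
    (h : cn c'' = shift (cn c) a b i i') : Bal c'' := by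
  intro j
  rw [h]
  have : ∑ x, shift (cn c) a b i i' x j = ∑ x, cn c x j -
      ((if j = a then 1 else 0) - (if j = b then 1 else 0)) *
        (∑ x : Fin d, ((if x = i then (1 : ℤ) else 0) - (if x = i' then 1 else 0))) := by
    rw [Finset.mul_sum, ← Finset.sum_sub_distrib]
    rfl
  rw [this, Finset.sum_sub_distrib]
  simp [hc j]

theorem exists_shift {d n : ℕ} (c : Cf d n) {a b i i' : Fin d} (hab : a ≠ b) (hii : i ≠ i')
    (h1 : 0 < cn c i a) (h2 : 0 < cn c i' b) : ∃ c'' : Cf d n, cn c'' = shift (cn c) a b i i' := by
  have h1' : 0 < #{p | c i p = a} := Int.natCast_pos.1 h1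
  have h2' : 0 < #{p | c i' p = b} := Int.natCast_pos.1 h2
  obtain ⟨p, hp⟩ := Finset.card_pos.1 h1'
  obtain ⟨p', hp'⟩ := Finset.card_pos.1 h2'
  have hp1 : c i p = a := (Finset.mem_filter.1 hp).2
  have hp2 : c i' p' = b := (Finset.mem_filter.1 hp').2
  refine ⟨fun x => if x = i then Function.update (c i) p b else
    if x = i' then Function.update (c i') p' a else c x, ?_⟩
  funext x j
  simp only [cn, shift]
  by_cases hx : x = i
  · subst hx
    simp only [if_true, if_neg hii]
    rw [count_update, hp1]
    have e1 : (if a = j then (1 : ℤ) else 0) = if j = a then 1 else 0 := by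
      simp only [eq_comm]
    have e2 : (if b = j then (1 : ℤ) else 0) = if j = b then 1 else 0 := by
      simp only [eq_comm]
    rw [e1, e2]
    ring
  · by_cases hx' : x = i'
    · subst hx'
      simp only [if_true, if_neg hx]
      rw [count_update, hp2]
      have e1 : (if a = j then (1 : ℤ) else 0) = if j = a then 1 else 0 := by
        simp only [eq_comm]
      have e2 : (if b = j then (1 : ℤ) else 0) = if j = b then 1 else 0 := by
        simp only [eq_comm]
      rw [e1, e2]
      ring
    · simp [hx, hx']

/-- the row sums -/
theorem row_sum {d n : ℕ} (c : Cf d n) (i : Fin d) : ∑ j, cn c i j = n := by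
  have h : ∑ j, #{p | c i p = j} = n := by
    have := Finset.card_eq_sum_card_fiberwise (f := c i) (s := (univ : Finset (Fin n)))
      (t := univ) (fun x _ => Finset.mem_coe.2 (mem_univ _))
    rw [← this]
    simp
  have h2 : ∑ j, cn c i j = ((∑ j, #{p | c i p = j} : ℕ) : ℤ) := by
    push_cast
    rfl
  rw [h2, h]

/-- the distance -/
def dist1 {d : ℕ} (A B : Mt d) : ℤ := ∑ i, ∑ j, |A i j - B i j|

theorem dist_shift {d : ℕ} (A B : Mt d) {a b i i' : Fin d} (hab : a ≠ b) (hii : i ≠ i')
    (h1 : B i a < A i a) (h2 : A i' a < B i' a) (h3 : B i' b < A i' b) :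
    dist1 (shift A a b i i') B ≤ dist1 A B - 2 := by
  have key : ∀ x j, |shift A a b i i' x j - B x j| ≤ |A x j - B x j| +
      ((if x = i then (if j = b then (1 : ℤ) else 0) - (if j = a then 1 else 0) else 0) +
        (if x = i' then - (if j = b then (1 : ℤ) else 0) - (if j = a then 1 else 0) else 0)) := by
    intro x j
    simp only [shift]
    by_cases hx : x = i
    · subst hx
      simp only [if_true, if_neg hii]
      by_cases hj : j = a
      · subst hj
        simp only [if_true, if_neg hab]
        rw [abs_of_nonneg (by linarith), abs_of_nonneg (by linarith)]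
        linarith
      · by_cases hj' : j = b
        · subst hj'
          simp only [if_true, if_neg hj]
          have := abs_add_le (A x j - B x j) 1
          have e : A x j - (0 - 1) * (1 - 0) - B x j = A x j - B x j + 1 := by ring
          rw [e]
          simpa using this
        · simp [hj, hj']
    · by_cases hx' : x = i'
      · subst hx'
        simp only [if_true, if_neg hx]
        by_cases hj : j = a
        · subst hj
          simp only [if_true, if_neg hab]
          rw [abs_of_nonpos (by linarith), abs_of_nonpos (by linarith)]
          linarith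
        · by_cases hj' : j = b
          · subst hj'
            simp only [if_true, if_neg hj]
            rw [abs_of_nonneg (by linarith), abs_of_nonneg (by linarith)]
            linarith
          · simp [hj, hj']
      · simp [hx, hx']
  have h4 : dist1 (shift A a b i i') B ≤ ∑ x, ∑ j, (|A x j - B x j| +
      ((if x = i then (if j = b then (1 : ℤ) else 0) - (if j = a then 1 else 0) else 0) +
        (if x = i' then - (if j = b then (1 : ℤ) else 0) - (if j = a then 1 else 0) else 0))) :=
    Finset.sum_le_sum fun x _ => Finset.sum_le_sum fun j _ => key x j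
  refine h4.trans (le_of_eq ?_)
  simp only [Finset.sum_add_distrib]
  have e1 : ∑ x : Fin d, ∑ j : Fin d, (if x = i then (if j = b then (1 : ℤ) else 0) -
      (if j = a then 1 else 0) else 0) = 0 := by
    rw [Finset.sum_eq_single i]
    · simp
    · intro x _ hx
      simp [hx]
    · simp
  have e2 : ∑ x : Fin d, ∑ j : Fin d, (if x = i' then - (if j = b then (1 : ℤ) else 0) -
      (if j = a then 1 else 0) else 0) = -2 := by
    rw [Finset.sum_eq_single i']
    · simp
    · intro x _ hx
      simp [hx]
    · simp
  rw [e1, e2]
  simp only [dist1]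
  ring

theorem s_DIS : S_DIS := by
  intro d n F L hL hF c c' hc hc'
  have main : ∀ (m : ℕ) (c : Cf d n), Bal c → dist1 (cn c) (cn c') ≤ m →
      |F (cn c) - F (cn c')| ≤ L * (dist1 (cn c) (cn c') : ℤ) := by
    intro m
    induction m using Nat.strong_induction_on with
    | _ m ih =>
      intro c hc hm
      by_cases heq : cn c = cn c'
      · rw [heq]
        simp [dist1]
      · -- a larger entry
        have hex : ∃ i a, cn c' i a < cn c i a := by
          by_contra hcon
          push Not at hcon
          apply heq
          funext i j
          have h1 : ∑ j, (cn c' i j - cn c i j) = 0 := by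
            rw [Finset.sum_sub_distrib, row_sum, row_sum]
            ring
          have h2 := (Finset.sum_eq_zero_iff_of_nonneg
            (fun j _ => sub_nonneg.2 (hcon i j))).1 h1 j (mem_univ j)
          linarith
        obtain ⟨i, a, hia⟩ := hex
        have hex2 : ∃ i', cn c i' a < cn c' i' a := by
          by_contra hcon
          push Not at hcon
          have h1 : ∑ x, (cn c x a - cn c' x a) = 0 := by
            rw [Finset.sum_sub_distrib, hc a, hc' a]
            ring
          have h2 := (Finset.sum_eq_zero_iff_of_nonneg
            (fun x _ => sub_nonneg.2 (hcon x))).1 h1 i (mem_univ i)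
          linarith
        obtain ⟨i', hi'⟩ := hex2
        have hex3 : ∃ b, cn c' i' b < cn c i' b := by
          by_contra hcon
          push Not at hcon
          have h1 : ∑ j, (cn c' i' j - cn c i' j) = 0 := by
            rw [Finset.sum_sub_distrib, row_sum, row_sum]
            ring
          have h2 := (Finset.sum_eq_zero_iff_of_nonneg
            (fun j _ => sub_nonneg.2 (hcon j))).1 h1 a (mem_univ a)
          linarith
        obtain ⟨b, hb⟩ := hex3
        have hab : a ≠ b := by
          rintro rfl
          linarith
        have hii : i ≠ i' := by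
          rintro rfl
          linarith
        have hn : ∀ (e : Cf d n) x j, 0 ≤ cn e x j := fun e x j => by
          simp only [cn]
          positivity
        obtain ⟨c'', hc''⟩ := exists_shift c hab hii (lt_of_le_of_lt (hn c' i a) hia)
          (lt_of_le_of_lt (hn c' i' b) hb)
        have hbal := shift_bal hc hc''
        have hd := dist_shift (cn c) (cn c') hab hii hia hi' hb
        rw [← hc''] at hd
        have hd0 : 0 ≤ dist1 (cn c'') (cn c') :=
          Finset.sum_nonneg fun _ _ => Finset.sum_nonneg fun _ _ => abs_nonneg _
        have hih := ih (m - 1) (by omega) c'' hbal (by omega)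
        have h5 := hF c c'' i i' a b hc hbal hc''
        have h6 : |F (cn c) - F (cn c')| ≤ |F (cn c) - F (cn c'')| + |F (cn c'') - F (cn c')| :=
          abs_sub_le _ _ _
        rw [abs_sub_comm (F (cn c)) (F (cn c''))] at h6
        have h7 : ((dist1 (cn c'') (cn c') : ℤ) : ℝ) ≤ (dist1 (cn c) (cn c') : ℤ) - 2 := by
          exact_mod_cast hd
        nlinarith [h5, h6, hih, mul_le_mul_of_nonneg_left h7 hL]
  have h := main (dist1 (cn c) (cn c')).toNat c hc (Int.self_le_toNat _)
  refine h.trans (le_of_eq ?_)
  simp only [dist1, rl]
  push_cast
  rfl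

end Pool.Agent.L7h42.UC
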