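import Pool.Agent.L7h38.UC.Stm

set_option autoImplicit false

/-! Project UC, part UPO: mixing in `O (log n)` rings. -/

namespace Pool.Agent.L7h42.UC

open Finset
open Pool.Agent.L7h38.UC

section EW

variable {d : ℕ} {μ : Equiv.Perm (Fin d) → ℝ}

theorem EW_mono (hμ : ∀ σ, 0 ≤ μ σ) : ∀ (N : ℕ) (g h : List (Equiv.Perm (Fin d)) → ℝ),
    (∀ w, w.length = N → g w ≤ h w) → EW μ N g ≤ EW μ N h
  | 0, g, h, H => H [] rfl
  | N + 1, g, h, H => by
    simp only [EW]
    exact Finset.sum_le_sum fun σ _ => mul_le_mul_of_nonneg_left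
      (EW_mono hμ N _ _ fun w hw => H (σ :: w) (by simp [hw])) (hμ σ)

theorem EW_sub : ∀ (N : ℕ) (g h : List (Equiv.Perm (Fin d)) → ℝ),
    EW μ N (fun w => g w - h w) = EW μ N g - EW μ N h
  | 0, g, h => rfl
  | N + 1, g, h => by
    simp only [EW]
    rw [← Finset.sum_sub_distrib]
    refine Finset.sum_congr rfl fun σ _ => ?_
    rw [EW_sub N]
    ring

theorem EW_add : ∀ (N : ℕ) (g h : List (Equiv.Perm (Fin d)) → ℝ),
    EW μ N (fun w => g w + h w) = EW μ N g + EW μ N h
  | 0, g, h => rfl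
  | N + 1, g, h => by
    simp only [EW]
    rw [← Finset.sum_add_distrib]
    refine Finset.sum_congr rfl fun σ _ => ?_
    rw [EW_add N]
    ring

theorem EW_smul (x : ℝ) : ∀ (N : ℕ) (g : List (Equiv.Perm (Fin d)) → ℝ),
    EW μ N (fun w => x * g w) = x * EW μ N g
  | 0, g => rfl
  | N + 1, g => by
    simp only [EW]
    rw [Finset.mul_sum]
    refine Finset.sum_congr rfl fun σ _ => ?_
    rw [EW_smul x N]
    ring

theorem EW_one (hμ : Pr μ) : ∀ (N : ℕ), EW μ N (fun _ => 1) = 1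
  | 0 => rfl
  | N + 1 => by
    simp only [EW]
    simp only [EW_one hμ N, mul_one]
    exact hμ.2

theorem EW_const (hμ : Pr μ) (x : ℝ) (N : ℕ) : EW μ N (fun _ => x) = x := by
  have := EW_smul (μ := μ) x N (fun _ => 1)
  simp only [mul_one] at this
  rw [this, EW_one hμ, mul_one]

theorem EW_abs (hμ : ∀ σ, 0 ≤ μ σ) (N : ℕ) (g h : List (Equiv.Perm (Fin d)) → ℝ)
    (H : ∀ w, w.length = N → |g w| ≤ h w) : |EW μ N g| ≤ EW μ N h := by
  rw [abs_le]
  constructor
  · have h1 : EW μ N (fun w => (-1) * h w) = (-1) * EW μ N h := EW_smul _ _ _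
    have h2 : EW μ N (fun w => (-1) * h w) ≤ EW μ N g :=
      EW_mono hμ N _ _ fun w hw => by
        have := (abs_le.1 (H w hw)).1
        linarith
    linarith
  · exact EW_mono hμ N _ _ fun w hw => (abs_le.1 (H w hw)).2

end EW

theorem q_nonneg {d : ℕ} {l : ℝ} (h0 : 0 ≤ l) (h1 : l ≤ 1) (σ : Equiv.Perm (Fin d))
    {ℓ : Fin d → Fin d → ℝ} (hℓ : ∀ i i', 0 ≤ ℓ i i') (i i' : Fin d) : 0 ≤ q l σ ℓ i i' := by
  have h2 : 0 ≤ 1 - l := by linarith
  simp only [q]
  split_ifs
  · exact le_rfl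
  · have := hℓ i i'
    have := hℓ (σ i) i'
    have := hℓ i (σ i')
    have := hℓ (σ i) (σ i')
    positivity

theorem QW_nonneg {d : ℕ} {l : ℝ} (h0 : 0 ≤ l) (h1 : l ≤ 1) :
    ∀ (w : List (Equiv.Perm (Fin d))) {ℓ : Fin d → Fin d → ℝ}, (∀ i i', 0 ≤ ℓ i i') →
      ∀ i i', 0 ≤ QW l w ℓ i i'
  | [], _, hℓ => hℓ
  | σ :: w, _, hℓ => q_nonneg h0 h1 σ (QW_nonneg h0 h1 w hℓ)

theorem QW_smul {d : ℕ} (l x : ℝ) :
    ∀ (w : List (Equiv.Perm (Fin d))) (ℓ : Fin d → Fin d → ℝ),
      QW l w (fun i i' => x * ℓ i i') = fun i i' => x * QW l w ℓ i i'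
  | [], _ => rfl
  | σ :: w, ℓ => by
    simp only [QW]
    rw [QW_smul l x w ℓ]
    funext i i'
    simp only [q]
    split_ifs
    · ring
    · ring

theorem shift_self {d : ℕ} (A : Mt d) (a b i : Fin d) : shift A a b i i = A := by
  funext x j
  simp [shift]

theorem sum_dist_le {d n : ℕ} (c c' : Cf d n) :
    ∑ i, ∑ j, |rl (cn c) i j - rl (cn c') i j| ≤ 2 * d * n := by
  have hrow : ∀ (e : Cf d n) (i : Fin d), ∑ j, rl (cn e) i j = n := by
    intro e i
    have h : ∑ j, #{p | e i p = j} = n := by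
      have := Finset.card_eq_sum_card_fiberwise (f := e i) (s := (univ : Finset (Fin n)))
        (t := univ) (fun x _ => Finset.mem_coe.2 (mem_univ _))
      rw [← this]
      simp
    have h2 : ∑ j, rl (cn e) i j = ((∑ j, #{p | e i p = j} : ℕ) : ℝ) := by
      simp only [rl, cn]
      push_cast
      rfl
    rw [h2, h]
  have hn : ∀ (e : Cf d n) i j, 0 ≤ rl (cn e) i j := by
    intro e i j
    simp only [rl, cn]
    positivity
  have h1 : ∀ i, ∑ j, |rl (cn c) i j - rl (cn c') i j| ≤ 2 * n := by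
    intro i
    calc ∑ j, |rl (cn c) i j - rl (cn c') i j| ≤ ∑ j, (rl (cn c) i j + rl (cn c') i j) := by
          refine Finset.sum_le_sum fun j _ => ?_
          rw [abs_le]
          have := hn c i j
          have := hn c' i j
          constructor <;> linarith
      _ = 2 * n := by
          rw [Finset.sum_add_distrib, hrow, hrow]
          ring
  calc ∑ i, ∑ j, |rl (cn c) i j - rl (cn c') i j| ≤ ∑ _i : Fin d, (2 * n : ℝ) :=
        Finset.sum_le_sum fun i _ => h1 i
    _ = 2 * d * n := by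
        simp
        ring

theorem s_UPO (hCON : S_CON) (hQN : S_QN) (hDIS : S_DIS) : S_UPO := by
  intro d μ hμ hI c0 hc0
  obtain ⟨C, ρ, hC, hρ0, hρ1, hQ⟩ := hQN d μ hμ hI c0 hc0
  refine ⟨4 * C * (d + 1), ρ, by positivity, hρ0, hρ1, ?_⟩
  intro n k N hn hk1 hk2 F hF c c' hc hc'
  have hn0 : (0 : ℝ) < n := by exact_mod_cast hn
  have hkn : k ≤ n := by
    have : (k : ℝ) ≤ n := by nlinarith
    exact_mod_cast this
  have hl1 : c0 ≤ (k : ℝ) / n := by
    rw [le_div_iff₀ hn0]
    exact hk1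
  have hl2 : (k : ℝ) / n ≤ 1 - c0 := by
    rw [div_le_iff₀ hn0]
    exact hk2
  have hl0 : (0 : ℝ) ≤ (k : ℝ) / n := by positivity
  have hl3 : (k : ℝ) / n ≤ 1 := by linarith
  have hoff : ∀ i i' : Fin d, 0 ≤ 2 * off i i' := by
    intro i i'
    simp only [off]
    split_ifs <;> norm_num
  -- the Lipschitz constants
  have hLip0 : Lip n F (fun i i' => 2 * off i i') := by
    intro c c' i i' a b _ _ h
    by_cases hii : i = i'
    · subst hii
      rw [shift_self] at h
      rw [h]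
      simpa using hoff i i
    · have h1 := abs_le.1 (hF (cn c))
      have h2 := abs_le.1 (hF (cn c'))
      simp only [off, if_neg hii]
      rw [abs_le]
      constructor <;> linarith
  have hLipW : ∀ w : List (Equiv.Perm (Fin d)),
      Lip n (PW n k w F) (QW (k / n) w (fun i i' => 2 * off i i')) := by
    intro w
    induction w with
    | nil => exact hLip0
    | cons σ w ih =>
      exact hCON d n k hn hkn σ _ _ (QW_nonneg hl0 hl3 w hoff) ih
  have hLipN : Lip n (PN μ n k N F) (fun _ _ => 2 * (C * ρ ^ N)) := by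
    intro c c' i i' a b hc hc' h
    have h1 : PN μ n k N F (cn c') - PN μ n k N F (cn c) =
        EW μ N (fun w => PW n k w F (cn c') - PW n k w F (cn c)) := by
      rw [EW_sub]
      rfl
    rw [h1]
    have h2 : |EW μ N (fun w => PW n k w F (cn c') - PW n k w F (cn c))| ≤
        EW μ N (fun w => QW (k / n) w (fun i i' => 2 * off i i') i i') :=
      EW_abs hμ.1 N _ _ fun w _ => hLipW w c c' i i' a b hc hc' h
    refine h2.trans ?_
    have h3 : EW μ N (fun w => QW (k / n) w (fun i i' => 2 * off i i') i i') =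
        2 * EW μ N (fun w => QW (k / n) w off i i') := by
      rw [← EW_smul]
      congr 1
      funext w
      rw [QW_smul]
    rw [h3]
    have := hQ (k / n) hl1 hl2 N i i'
    linarith
  have hCρ : 0 ≤ C * ρ ^ N := by positivity
  have h4 := hDIS d n (PN μ n k N F) (2 * (C * ρ ^ N)) (by positivity) hLipN c c' hc hc'
  have h5 := sum_dist_le c c'
  calc |PN μ n k N F (cn c) - PN μ n k N F (cn c')| ≤ _ := h4
    _ ≤ 2 * (C * ρ ^ N) * (2 * d * n) := mul_le_mul_of_nonneg_left h5 (by positivity)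
    _ ≤ 4 * C * (d + 1) * n * ρ ^ N := by nlinarith [mul_nonneg hCρ hn0.le]

end Pool.Agent.L7h42.UC
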